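import Pool.Agent.H103Z.Cov

set_option autoImplicit false

namespace Pool.Agent.Results.MP_acc8c3_co.ALinearBound

open Pool.Agent.H103Z.Cov

/-- For every `k ≥ 1` some finite complete bipartite graph has a spanning `k`-colouring for which
every cover of the vertex set by monochromatic components uses at least `2k - 4` of them,
hence at least `2k - 4 √k`. -/
theorem result (k : ℕ) (hk : 1 ≤ k) :
    ∃ (A B : Type) (_ : Finite A) (_ : Finite B) (_ : Nonempty A) (_ : Nonempty B)
      (c : A → B → Fin k), Spanning c ∧ ∀ m : ℕ, CoveredBy c m →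
        2 * (k : ℝ) - 4 ≤ m ∧ 2 * (k : ℝ) - 4 * Real.sqrt k ≤ m :=
  main' k hk

end Pool.Agent.Results.MP_acc8c3_co.ALinearBound
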